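import Pool.Agent.L7h89.EX.Pair

/-!
# Project EX (owner helper27, problem MP_570bef_nt), part COUNTX
-/

set_option autoImplicit false

namespace Pool.Agent.L7h89.EX

open Finset Pool.Agent.L7h27.EX Pool.Agent.L7h89.WB
open Pool.Agent.L7h67.WB (gb)

lemma stepx_mono (m Q V T V' T' D : ℝ) (hQ : 0 < Q) (hV : 0 ≤ V) (hT : 0 ≤ T) (hD : 0 ≤ D)
    (hV0 : 0 ≤ V') (hT0 : 0 ≤ T')
    (hV' : V' ≤ V + D * Q ^ (m - 1)) (hT' : T' ≤ T + D * Q ^ (m - 1)) :
    stepx m Q V' T' ≤ (1 + 2 * D) ^ 2 * stepx m Q V T := by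
  have hq : 0 < Q ^ (m - 1) := Real.rpow_pos_of_pos hQ _
  set A : ℝ := V / Q ^ (m - 1) with hA
  set B : ℝ := T / Q ^ (m - 1) with hB
  set A' : ℝ := V' / Q ^ (m - 1) with hA'
  set B' : ℝ := T' / Q ^ (m - 1) with hB'
  have hA0 : 0 ≤ A := by positivity
  have hB0 : 0 ≤ B := by positivity
  have hA0' : 0 ≤ A' := by positivity
  have hB0' : 0 ≤ B' := by positivity
  have h1 : A' ≤ A + D := by
    rw [hA', div_le_iff₀ (by positivity), hA, add_mul, div_mul_cancel₀ _ (by positivity)]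
    exact hV'
  have h2 : B' ≤ B + D := by
    rw [hB', div_le_iff₀ (by positivity), hB, add_mul, div_mul_cancel₀ _ (by positivity)]
    exact hT'
  have h3 : 1 + A' ≤ (1 + 2 * D) * (1 + A) := by nlinarith [mul_nonneg hD hA0]
  have h4 : 1 + A' + B' ≤ (1 + 2 * D) * (1 + A + B) := by
    nlinarith [mul_nonneg hD hA0, mul_nonneg hD hB0]
  have hst : stepx m Q V T = min (Q ^ 2) (min (Q * (1 + A)) ((1 + A) * (1 + A + B))) := rfl
  have hst' : stepx m Q V' T' = min (Q ^ 2) (min (Q * (1 + A')) ((1 + A') * (1 + A' + B'))) :=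
    rfl
  have hD1 : 1 ≤ 1 + 2 * D := by linarith
  have hDs : 0 ≤ (1 + 2 * D) ^ 2 := sq_nonneg _
  have hD2 : 1 ≤ (1 + 2 * D) ^ 2 := one_le_pow₀ hD1
  have hD3 : 1 + 2 * D ≤ (1 + 2 * D) ^ 2 := by nlinarith
  rw [hst, hst', mul_min_of_nonneg _ _ hDs, mul_min_of_nonneg _ _ hDs]
  refine min_le_min ?_ (min_le_min ?_ ?_)
  · exact le_mul_of_one_le_left (sq_nonneg _) hD2
  · calc Q * (1 + A') ≤ Q * ((1 + 2 * D) * (1 + A)) := mul_le_mul_of_nonneg_left h3 hQ.le
      _ = (1 + 2 * D) * (Q * (1 + A)) := by ring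
      _ ≤ (1 + 2 * D) ^ 2 * (Q * (1 + A)) :=
        mul_le_mul_of_nonneg_right hD3 (mul_nonneg hQ.le (by linarith))
  · calc (1 + A') * (1 + A' + B') ≤ ((1 + 2 * D) * (1 + A)) * ((1 + 2 * D) * (1 + A + B)) :=
        mul_le_mul h3 h4 (by linarith) (mul_nonneg (by linarith) (by linarith))
      _ = (1 + 2 * D) ^ 2 * ((1 + A) * (1 + A + B)) := by ring

lemma stepx_nonneg (m Q V T : ℝ) (hQ : 0 ≤ Q) (hV : 0 ≤ V) (hT : 0 ≤ T) :
    0 ≤ stepx m Q V T :=
  le_min (by positivity) (le_min (by positivity) (by positivity))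

/-- the size of one summand -/
lemma size_le {b m Q x : ℝ} (hm0 : 0 ≤ m) (hmb : m ≤ b) (hQ : 3 ≤ Q) (hx : Q ≤ x)
    (hx' : x ≤ 32 * Q) : |x ^ m| ≤ 32 ^ b * (Q ^ m * Real.log Q) ∧
      |x ^ m * Real.log x| ≤ 5 * 32 ^ b * (Q ^ m * Real.log Q) := by
  have hQp : 0 < Q := by linarith
  have hxp : 0 < x := by linarith
  have hlQ : 1 ≤ Real.log Q := by
    rw [Real.le_log_iff_exp_le hQp]
    have := Real.exp_one_lt_d9
    linarith
  have h1 : x ^ m ≤ 32 ^ b * Q ^ m := by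
    calc x ^ m ≤ (32 * Q) ^ m := Real.rpow_le_rpow hxp.le hx' hm0
      _ = 32 ^ m * Q ^ m := Real.mul_rpow (by norm_num) hQp.le
      _ ≤ 32 ^ b * Q ^ m := mul_le_mul_of_nonneg_right
          (Real.rpow_le_rpow_of_exponent_le (by norm_num) hmb) (Real.rpow_nonneg hQp.le _)
  have h2 : Real.log x ≤ 5 * Real.log Q := by
    have h3 : Real.log x ≤ Real.log (32 * Q) := Real.log_le_log hxp hx'
    have h4 : Real.log (32 * Q) = Real.log 32 + Real.log Q :=
      Real.log_mul (by norm_num) hQp.ne'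
    have h5 : Real.log 32 ≤ 4 := by
      rw [Real.log_le_iff_le_exp (by norm_num)]
      have h1 : Real.exp 4 = (Real.exp 1) ^ 4 := by rw [← Real.exp_nat_mul]; norm_num
      rw [h1]
      have h6 : (27 / 10 : ℝ) ≤ Real.exp 1 := by
        have := Real.exp_one_gt_d9
        linarith
      calc (32 : ℝ) ≤ (27 / 10) ^ 4 := by norm_num
        _ ≤ _ := pow_le_pow_left₀ (by norm_num) h6 4
    linarith
  have h0 : 0 ≤ x ^ m := Real.rpow_nonneg hxp.le _
  have hl0 : 0 ≤ Real.log x := Real.log_nonneg (by linarith)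
  have hq0 : 0 ≤ 32 ^ b * Q ^ m := h0.trans h1
  constructor
  · rw [abs_of_nonneg h0, ← mul_assoc]
    exact h1.trans (le_mul_of_one_le_right hq0 hlQ)
  · rw [abs_of_nonneg (mul_nonneg h0 hl0)]
    calc x ^ m * Real.log x ≤ (32 ^ b * Q ^ m) * (5 * Real.log Q) :=
          mul_le_mul h1 h2 hl0 hq0
      _ = _ := by ring

/-- **COUNTX** -/
theorem s_COUNTX : S_COUNTX := by
  classical
  intro a b ha hab B n hB
  obtain ⟨K1, Q1, hK1, hQ1, hpair⟩ := s_PAIRX a b ha hab
  induction n with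
  | zero =>
    refine ⟨1, 3, le_rfl, le_rfl, ?_⟩
    intro m _ _ Q Lg _ _ V T c1 c2 _ _ X _ _
    rw [prod_range_zero, mul_one, pow_zero, mul_one]
    have : #X ≤ 1 := card_le_one.2 fun a _ b _ => Subsingleton.elim a b
    exact_mod_cast this
  | succ n ih =>
    obtain ⟨K, Q2, hK, hQ2, ih⟩ := ih
    set C : ℝ := 5 * 32 ^ b with hC
    have hC1 : (0 : ℝ) < 32 ^ b := by positivity
    have hC0 : 0 < C := by positivity
    set D : ℝ := 2 * C * B with hD
    have hD0 : 0 ≤ D := by positivity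
    refine ⟨K * ((1 + 2 * D) ^ 2) ^ n * K1, max Q1 Q2, ?_, ?_, ?_⟩
    · have h1 : 1 ≤ ((1 + 2 * D) ^ 2) ^ n := one_le_pow₀ (one_le_pow₀ (by linarith))
      exact one_le_mul_of_one_le_of_one_le (one_le_mul_of_one_le_of_one_le hK h1) hK1
    · exact hQ2.trans (le_max_right _ _)
    intro m hma hmb Q Lg hQ hQQ V T c1 c2 hV hT X hX hX2
    have hm0 : 0 ≤ m := by linarith
    have hQn := (hQ n (Nat.lt_succ_self n)).1
    have hLn := (hQ n (Nat.lt_succ_self n)).2
    have hQn1 : Q1 ≤ Q n := (le_max_left _ _).trans hQn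
    have hQi : ∀ i < n + 1, Q2 ≤ Q i := fun i hi => (le_max_right _ _).trans (hQ i hi).1
    have hQp : ∀ i < n + 1, 0 < Q i := fun i hi => by linarith [hQi i hi]
    have hQnp : 0 < Q n := hQp n (Nat.lt_succ_self n)
    have hQn3 : 3 ≤ Q n := hQ1.trans hQn1
    have hlog : 1 ≤ Real.log (Q n) := by
      rw [Real.le_log_iff_exp_le hQnp]
      have := Real.exp_one_lt_d9
      linarith
    have hLg : 0 ≤ Lg := by linarith
    set W : ℝ := Q n ^ m * Real.log (Q n) with hW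
    have hW0 : 0 ≤ W := mul_nonneg (Real.rpow_nonneg hQnp.le _) (by linarith)
    -- the size of the last level
    have hlast : ∀ x ∈ X, |((x (Fin.last n)).1 : ℝ) ^ m + ((x (Fin.last n)).2 : ℝ) ^ m| ≤
        2 * C * W ∧ |((x (Fin.last n)).1 : ℝ) ^ m * Real.log (x (Fin.last n)).1 +
          ((x (Fin.last n)).2 : ℝ) ^ m * Real.log (x (Fin.last n)).2| ≤ 2 * C * W := by
      intro x hx
      obtain ⟨h1, h2, h3, h4⟩ := hX x hx (Fin.last n)
      rw [Fin.val_last] at h1 h2 h3 h4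
      obtain ⟨a1, a2⟩ := size_le (b := b) hm0 hmb hQn3 h1 (by linarith)
      obtain ⟨b1, b2⟩ := size_le (b := b) hm0 hmb hQn3 (by linarith :
        Q n ≤ ((x (Fin.last n)).2 : ℝ)) h4
      have hCW : 32 ^ b * W ≤ C * W := by
        rw [hC]
        nlinarith [mul_nonneg hC1.le hW0]
      exact ⟨(abs_add_le _ _).trans (by linarith), (abs_add_le _ _).trans (by linarith)⟩
    set V' : ℝ := V + 2 * C * W with hV'
    set T' : ℝ := T + 2 * C * W with hT'
    have hV'0 : 0 ≤ V' := by positivity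
    have hT'0 : 0 ≤ T' := by positivity
    -- the image
    have himg : (#(X.image Fin.init) : ℝ) ≤
        K * Lg ^ n * ∏ i ∈ range n, stepx m (Q i) V' T' := by
      refine ih m hma hmb Q Lg (fun i hi => ⟨hQi i (by omega), (hQ i (by omega)).2⟩)
        (fun i j hij hj => hQQ i j hij (by omega)) V' T' c1 c2 hV'0 hT'0 _ ?_ ?_
      · intro y hy i
        obtain ⟨x, hx, rfl⟩ := mem_image.1 hy
        exact hX x hx i.castSucc
      · intro y hy
        obtain ⟨x, hx, rfl⟩ := mem_image.1 hy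
        obtain ⟨h1, h2⟩ := hX2 x hx
        obtain ⟨h3, h4⟩ := hlast x hx
        unfold gb at h1 h2 ⊢
        rw [Fin.sum_univ_castSucc] at h1 h2
        have e1 : ∑ i : Fin n, ((((Fin.init x : Fin n → ℕ × ℕ) i).1 : ℝ) ^ m +
            (((Fin.init x : Fin n → ℕ × ℕ) i).2 : ℝ) ^ m) =
            ∑ i : Fin n, (((x i.castSucc).1 : ℝ) ^ m + ((x i.castSucc).2 : ℝ) ^ m) := rfl
        have e2 : ∑ i : Fin n, ((((Fin.init x : Fin n → ℕ × ℕ) i).1 : ℝ) ^ m *
              Real.log ((Fin.init x : Fin n → ℕ × ℕ) i).1 +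
            (((Fin.init x : Fin n → ℕ × ℕ) i).2 : ℝ) ^ m *
              Real.log ((Fin.init x : Fin n → ℕ × ℕ) i).2) =
            ∑ i : Fin n, (((x i.castSucc).1 : ℝ) ^ m * Real.log (x i.castSucc).1 +
              ((x i.castSucc).2 : ℝ) ^ m * Real.log (x i.castSucc).2) := rfl
        rw [e1, e2]
        rw [abs_le] at h1 h2 h3 h4
        constructor <;> rw [abs_le] <;> constructor <;> linarith
    -- the fibres
    have hfib : ∀ y ∈ X.image Fin.init,
        (#{x ∈ X | (Fin.init x : Fin n → ℕ × ℕ) = y} : ℝ) ≤ K1 * Lg * stepx m (Q n) V T := by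
      intro y _
      have h1 : #{x ∈ X | (Fin.init x : Fin n → ℕ × ℕ) = y} =
          #({x ∈ X | (Fin.init x : Fin n → ℕ × ℕ) = y}.image fun x => x (Fin.last n)) := by
        rw [card_image_of_injOn]
        intro x hx x' hx' h
        have hx1 := (mem_filter.1 (mem_coe.1 hx)).2
        have hx2 := (mem_filter.1 (mem_coe.1 hx')).2
        rw [← Fin.snoc_init_self x, ← Fin.snoc_init_self x', hx1, hx2]
        congr 1
      rw [h1]
      refine (hpair m hma hmb (Q n) hQn1 V T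
        (c1 - ∑ i : Fin n, (((y i).1 : ℝ) ^ m + ((y i).2 : ℝ) ^ m))
        (c2 - ∑ i : Fin n, (((y i).1 : ℝ) ^ m * Real.log (y i).1 +
          ((y i).2 : ℝ) ^ m * Real.log (y i).2)) hV hT _ ?_ ?_).trans ?_
      · intro z hz
        obtain ⟨x, hx, rfl⟩ := mem_image.1 hz
        have := hX x (mem_filter.1 hx).1 (Fin.last n)
        rwa [Fin.val_last] at this
      · intro z hz
        obtain ⟨x, hx, rfl⟩ := mem_image.1 hz
        obtain ⟨hx, hxy⟩ := mem_filter.1 hx
        obtain ⟨h1, h2⟩ := hX2 x hx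
        unfold gb at h1 h2
        rw [Fin.sum_univ_castSucc] at h1 h2
        rw [← hxy]
        have e1 : ∑ i : Fin n, ((((Fin.init x : Fin n → ℕ × ℕ) i).1 : ℝ) ^ m +
            (((Fin.init x : Fin n → ℕ × ℕ) i).2 : ℝ) ^ m) =
            ∑ i : Fin n, (((x i.castSucc).1 : ℝ) ^ m + ((x i.castSucc).2 : ℝ) ^ m) := rfl
        have e2 : ∑ i : Fin n, ((((Fin.init x : Fin n → ℕ × ℕ) i).1 : ℝ) ^ m *
              Real.log ((Fin.init x : Fin n → ℕ × ℕ) i).1 +
            (((Fin.init x : Fin n → ℕ × ℕ) i).2 : ℝ) ^ m *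
              Real.log ((Fin.init x : Fin n → ℕ × ℕ) i).2) =
            ∑ i : Fin n, (((x i.castSucc).1 : ℝ) ^ m * Real.log (x i.castSucc).1 +
              ((x i.castSucc).2 : ℝ) ^ m * Real.log (x i.castSucc).2) := rfl
        rw [e1, e2]
        rw [abs_le] at h1 h2
        constructor <;> rw [abs_le] <;> constructor <;> linarith
      · refine mul_le_mul_of_nonneg_right ?_ (stepx_nonneg m _ _ _ hQnp.le hV hT)
        exact mul_le_mul_of_nonneg_left hLn (by linarith)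
    have hs0 : 0 ≤ stepx m (Q n) V T := stepx_nonneg m _ _ _ hQnp.le hV hT
    have h1 := card_fib X Fin.init _ hfib
    have h2 : ∏ i ∈ range n, stepx m (Q i) V' T' ≤
        ((1 + 2 * D) ^ 2) ^ n * ∏ i ∈ range n, stepx m (Q i) V T := by
      have h3 : ((1 + 2 * D) ^ 2) ^ n = ∏ _i ∈ range n, (1 + 2 * D) ^ 2 := by
        rw [prod_const, card_range]
      rw [h3, ← prod_mul_distrib]
      refine prod_le_prod (fun i hi => ?_) fun i hi => ?_
      · have hi' := mem_range.1 hi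
        exact stepx_nonneg m _ _ _ (hQp i (by omega)).le hV'0 hT'0
      · have hi' := mem_range.1 hi
        have q1 := hQQ i n hi' (Nat.lt_succ_self n)
        have q2 := mul_le_mul_of_nonneg_left q1 (by positivity : 0 ≤ 2 * C)
        refine stepx_mono m (Q i) V T V' T' D (hQp i (by omega)) hV hT hD0 hV'0 hT'0 ?_ ?_
        · rw [hV', hD, mul_assoc (2 * C) B]
          linarith
        · rw [hT', hD, mul_assoc (2 * C) B]
          linarith
    rw [prod_range_succ]
    have hKL : 0 ≤ K1 * Lg * stepx m (Q n) V T :=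
      mul_nonneg (mul_nonneg (by linarith) hLg) hs0
    calc (#X : ℝ) ≤ #(X.image Fin.init) * (K1 * Lg * stepx m (Q n) V T) := h1
      _ ≤ (K * Lg ^ n * ∏ i ∈ range n, stepx m (Q i) V' T') * (K1 * Lg * stepx m (Q n) V T) :=
          mul_le_mul_of_nonneg_right himg hKL
      _ ≤ (K * Lg ^ n * (((1 + 2 * D) ^ 2) ^ n * ∏ i ∈ range n, stepx m (Q i) V T)) *
            (K1 * Lg * stepx m (Q n) V T) := by
          refine mul_le_mul_of_nonneg_right ?_ hKL
          exact mul_le_mul_of_nonneg_left h2 (mul_nonneg (by linarith) (pow_nonneg hLg n))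
      _ = _ := by ring

end Pool.Agent.L7h89.EX
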