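import Pool.Agent.L7h27.EX.Stm

/-!
# Project EX (owner helper27, problem MP_570bef_nt), part NUMX
-/

set_option autoImplicit false

namespace Pool.Agent.L7h89.EX

open Finset Pool.Agent.L7h27.EX

/-- the potential -/
noncomputable def Gp (m t s : ℝ) : ℝ := max (m * s) t + max (m * s) (2 * t - m)

/-- one level -/
lemma levelx {m r P L t s V : ℝ} (hm : 1 < m) (hP : 1 < P) (hL : 1 ≤ L) (hs : 0 < s)
    (_hr0 : 0 < r) (hκ : 0 ≤ m * (1 - r) - 1) (ht : t ≤ m) (hV0 : 0 ≤ V)
    (hV : V ≤ L * P ^ (2 * t - m)) :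
    stepx m (P ^ s) V (P ^ t) ≤ 6 * L ^ 2 * (P ^ s) ^ 2 *
      P ^ (-(Gp m t s - Gp m t (r * s) - 2 * (m * (1 - r) - 1) * s)) := by
  have hP0 : 0 < P := by linarith
  have hm0 : 0 < m := by linarith
  have eQ1 : (P ^ s) ^ (m - 1) = P ^ (s * (m - 1)) := (Real.rpow_mul hP0.le _ _).symm
  have eQQ : (P ^ s) ^ 2 = P ^ (s + s) := by
    rw [sq, Real.rpow_add hP0]
  have hQ0 : 0 < P ^ s := Real.rpow_pos_of_pos hP0 _
  have hκs : 0 ≤ (m * (1 - r) - 1) * s := mul_nonneg hκ hs.le
  have hr1 : r ≤ 1 := by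
    by_contra h
    push Not at h
    nlinarith
  have hrs : m * (r * s) ≤ m * s := by nlinarith [mul_pos hm0 hs]
  obtain ⟨a, ha⟩ : ∃ a : ℝ, a = max (m * (r * s)) (2 * t - m) - m * (r * s) := ⟨_, rfl⟩
  obtain ⟨b, hb⟩ : ∃ b : ℝ, b = max (m * (r * s)) t - m * (r * s) := ⟨_, rfl⟩
  have ha0 : 0 ≤ a := by
    rw [ha]
    linarith [le_max_left (m * (r * s)) (2 * t - m)]
  have hb0 : 0 ≤ b := by
    rw [hb]
    linarith [le_max_left (m * (r * s)) t]
  have ha1 : 2 * t - m - m * (r * s) ≤ a := by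
    rw [ha]
    linarith [le_max_right (m * (r * s)) (2 * t - m)]
  have hb1 : t - m * (r * s) ≤ b := by
    rw [hb]
    linarith [le_max_right (m * (r * s)) t]
  have hab : a ≤ b := by
    rw [ha, hb]
    have : max (m * (r * s)) (2 * t - m) ≤ max (m * (r * s)) t :=
      max_le_max le_rfl (by linarith)
    linarith
  have hPa : 1 ≤ P ^ a := Real.one_le_rpow hP.le ha0
  have hPb : 1 ≤ P ^ b := Real.one_le_rpow hP.le hb0
  have hPab : P ^ a ≤ P ^ b := Real.rpow_le_rpow_of_exponent_le hP.le hab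
  have hA0 : 0 ≤ V / (P ^ s) ^ (m - 1) := by positivity
  have hB0 : 0 ≤ P ^ t / (P ^ s) ^ (m - 1) := by positivity
  have hA : V / (P ^ s) ^ (m - 1) ≤ L * P ^ a := by
    rw [div_le_iff₀ (by positivity), eQ1, mul_assoc, ← Real.rpow_add hP0]
    refine hV.trans (mul_le_mul_of_nonneg_left ?_ (by linarith))
    refine Real.rpow_le_rpow_of_exponent_le hP.le ?_
    nlinarith
  have hB : P ^ t / (P ^ s) ^ (m - 1) ≤ P ^ b := by
    rw [div_le_iff₀ (by positivity), eQ1, ← Real.rpow_add hP0]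
    refine Real.rpow_le_rpow_of_exponent_le hP.le ?_
    nlinarith
  have hLa : 1 ≤ L * P ^ a := one_le_mul_of_one_le_of_one_le hL hPa
  have hL2 : L ≤ L ^ 2 := by nlinarith
  rcases lt_or_ge t (m * s) with h1 | h1
  · -- third term
    have hG : Gp m t s = 2 * (m * s) := by
      unfold Gp
      rw [max_eq_left h1.le, max_eq_left (by linarith)]
      ring
    have hG' : Gp m t (r * s) = a + b + 2 * (m * (r * s)) := by
      unfold Gp
      rw [ha, hb]
      ring
    have e : s + s + -(Gp m t s - Gp m t (r * s) - 2 * (m * (1 - r) - 1) * s) = a + b := by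
      rw [hG, hG']
      ring
    rw [mul_assoc, eQQ, ← Real.rpow_add hP0, e, Real.rpow_add hP0]
    refine (min_le_right _ _).trans ((min_le_right _ _).trans ?_)
    have hLb : L * P ^ a ≤ L * P ^ b := mul_le_mul_of_nonneg_left hPab (by linarith)
    have hLb' : P ^ b ≤ L * P ^ b := le_mul_of_one_le_left (by linarith) hL
    calc (1 + V / (P ^ s) ^ (m - 1)) * (1 + V / (P ^ s) ^ (m - 1) + P ^ t / (P ^ s) ^ (m - 1))
        ≤ (2 * (L * P ^ a)) * (3 * (L * P ^ b)) :=
          mul_le_mul (by linarith) (by linarith) (by linarith) (by linarith)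
      _ = 6 * L ^ 2 * (P ^ a * P ^ b) := by ring
  · rcases lt_or_ge (2 * t - m) (m * s) with h2 | h2
    · -- second term
      have hG : Gp m t s = t + m * s := by
        unfold Gp
        rw [max_eq_right h1, max_eq_left h2.le]
      have hG' : Gp m t (r * s) = t + (a + m * (r * s)) := by
        unfold Gp
        rw [ha, max_eq_right (by linarith : m * (r * s) ≤ t)]
        ring
      have e : s + a ≤ s + s + -(Gp m t s - Gp m t (r * s) - 2 * (m * (1 - r) - 1) * s) := by
        rw [hG, hG']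
        nlinarith
      rw [mul_assoc, eQQ, ← Real.rpow_add hP0]
      refine (min_le_right _ _).trans ((min_le_left _ _).trans ?_)
      calc P ^ s * (1 + V / (P ^ s) ^ (m - 1)) ≤ P ^ s * (2 * (L * P ^ a)) :=
            mul_le_mul_of_nonneg_left (by linarith) hQ0.le
        _ = 2 * L * P ^ (s + a) := by
            rw [Real.rpow_add hP0]
            ring
        _ ≤ 6 * L ^ 2 * P ^ (s + s +
            -(Gp m t s - Gp m t (r * s) - 2 * (m * (1 - r) - 1) * s)) := by
            refine mul_le_mul ?_ (Real.rpow_le_rpow_of_exponent_le hP.le e)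
              (Real.rpow_nonneg hP0.le _) (by positivity)
            nlinarith
    · -- first term
      have hG : Gp m t s = Gp m t (r * s) := by
        unfold Gp
        rw [max_eq_right h1, max_eq_right h2, max_eq_right (by linarith : m * (r * s) ≤ t),
          max_eq_right (by linarith : m * (r * s) ≤ 2 * t - m)]
      rw [hG, sub_self, zero_sub, neg_neg]
      refine (min_le_left _ _).trans ?_
      have h3 : 1 ≤ P ^ (2 * (m * (1 - r) - 1) * s) :=
        Real.one_le_rpow hP.le (by linarith)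
      have h4 : 1 ≤ 6 * L ^ 2 := by nlinarith
      calc (P ^ s) ^ 2 = 1 * (P ^ s) ^ 2 * 1 := by ring
        _ ≤ 6 * L ^ 2 * (P ^ s) ^ 2 * P ^ (2 * (m * (1 - r) - 1) * s) :=
          mul_le_mul (mul_le_mul_of_nonneg_right h4 (sq_nonneg _)) h3 (by norm_num)
            (by positivity)

/-- **NUMX** -/
theorem s_NUMX : S_NUMX := by
  intro m r J hm hr0 hr hJ P L T V hP hL hT1 hV0 hV
  have hm0 : 0 < m := by linarith
  have hP0 : 0 < P := by linarith
  have hT0 : 0 < T := lt_of_lt_of_le (Real.rpow_pos_of_pos hP0 _) hT1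
  have hL0 : 0 < L := by linarith
  have hκ : 0 ≤ m * (1 - r) - 1 := by
    have h1 : m * r ≤ m * (1 - 1 / m) := mul_le_mul_of_nonneg_left hr hm0.le
    have h2 : m * (1 - 1 / m) = m - 1 := by field_simp
    linarith
  have hr1 : r ≤ 1 := by
    have : 0 < 1 / m := by positivity
    linarith
  have hPm : 0 < P ^ m := Real.rpow_pos_of_pos hP0 _
  have hPκ : 1 ≤ P ^ (2 * m * (m * (1 - r) - 1)) :=
    Real.one_le_rpow hP (mul_nonneg (by linarith) hκ)
  have hqp : ∀ i, 0 < qx r P i := fun i => by rw [qx]; positivity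
  have hstep0 : ∀ Q : ℝ, 0 ≤ Q → 0 ≤ stepx m Q V T := by
    intro Q hQ
    refine le_min (by positivity) (le_min (by positivity) (by positivity))
  have h6 : 6 * L ^ 2 ≤ (4 * L ^ 2) ^ 2 := by
    have : 1 ≤ L ^ 2 := one_le_pow₀ hL
    nlinarith
  by_cases hcase : P ^ m ≤ T
  · have hvz : vzx m P T = T := by
      rw [vzx, min_eq_left, mul_one]
      rw [le_div_iff₀ hPm, one_mul]
      exact hcase
    rw [hvz]
    have h1 : ∏ i ∈ range J, stepx m (qx r P i) V T ≤ ∏ i ∈ range J, qx r P i ^ 2 :=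
      prod_le_prod (fun i _ => hstep0 _ (hqp _).le) fun i _ => min_le_left _ _
    have h2 : 1 ≤ T / P ^ m := by
      rw [le_div_iff₀ hPm, one_mul]
      exact hcase
    have h3 : (1 : ℝ) ≤ (4 * L ^ 2) ^ (2 * J) := one_le_pow₀ (by nlinarith)
    have h4 : 0 ≤ ∏ i ∈ range J, qx r P i ^ 2 := prod_nonneg fun i _ => sq_nonneg _
    calc ∏ i ∈ range J, stepx m (qx r P i) V T ≤ ∏ i ∈ range J, qx r P i ^ 2 := h1
      _ = 1 * (∏ i ∈ range J, qx r P i ^ 2) * 1 * 1 := by ring
      _ ≤ (4 * L ^ 2) ^ (2 * J) * (∏ i ∈ range J, qx r P i ^ 2) * (T / P ^ m) *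
          P ^ (2 * m * (m * (1 - r) - 1)) := by
          gcongr
  · push Not at hcase
    have hP1 : 1 < P := by
      rcases eq_or_lt_of_le hP with h | h
      · exfalso
        rw [← h, Real.one_rpow] at hcase hT1
        linarith
      · exact h
    obtain ⟨t, ht⟩ : ∃ t : ℝ, T = P ^ t :=
      ⟨Real.logb P T, (Real.rpow_logb hP0 hP1.ne' hT0).symm⟩
    have ht1 : m / 2 ≤ t := by
      rw [ht] at hT1
      exact (Real.rpow_le_rpow_left_iff hP1).1 hT1
    have ht2 : t ≤ m := by
      rw [ht] at hcase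
      exact ((Real.rpow_lt_rpow_left_iff hP1).1 hcase).le
    have hvz : vzx m P T = P ^ (2 * t - m) := by
      rw [vzx, min_eq_right, ht, ← Real.rpow_sub hP0, ← Real.rpow_add hP0]
      · congr 1
        ring
      · rw [div_le_one hPm]
        exact hcase.le
    rw [hvz] at hV
    rw [hvz]
    have hlev : ∀ i ∈ range J, stepx m (qx r P i) V T ≤
        6 * L ^ 2 * (qx r P i) ^ 2 * P ^ (-(Gp m t (r ^ i) - Gp m t (r ^ (i + 1)) -
          2 * (m * (1 - r) - 1) * r ^ i)) := by
      intro i _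
      have h := levelx (m := m) (r := r) (s := r ^ i) hm hP1 hL (pow_pos hr0 _) hr0 hκ ht2 hV0 hV
      rw [← ht, ← pow_succ'] at h
      exact h
    have h1 : ∏ i ∈ range J, stepx m (qx r P i) V T ≤
        ∏ i ∈ range J, (6 * L ^ 2 * (qx r P i) ^ 2 * P ^ (-(Gp m t (r ^ i) -
          Gp m t (r ^ (i + 1)) - 2 * (m * (1 - r) - 1) * r ^ i))) :=
      prod_le_prod (fun i _ => hstep0 _ (hqp i).le) hlev
    refine h1.trans ?_
    rw [prod_mul_distrib, prod_mul_distrib, prod_const, card_range,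
      ← Real.rpow_sum_of_pos hP0, sum_neg_distrib]
    -- the sum of the exponents
    have hs1 : ∑ i ∈ range J, r ^ i ≤ m := by
      have h2 : ∀ i ∈ range J, r ^ i ≤ m * (r ^ i - r ^ (i + 1)) := by
        intro i _
        have h3 : 0 < r ^ i := pow_pos hr0 _
        have h4 : m * (r ^ i - r ^ (i + 1)) = (m * (1 - r)) * r ^ i := by
          rw [pow_succ]
          ring
        rw [h4]
        exact le_mul_of_one_le_left h3.le (by linarith)
      refine (sum_le_sum h2).trans ?_
      rw [← mul_sum, sum_range_sub', pow_zero]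
      have : 0 < r ^ J := pow_pos hr0 _
      nlinarith
    have hs2 : ∑ i ∈ range J, (Gp m t (r ^ i) - Gp m t (r ^ (i + 1)) -
        2 * (m * (1 - r) - 1) * r ^ i) =
        Gp m t 1 - Gp m t (r ^ J) - 2 * (m * (1 - r) - 1) * ∑ i ∈ range J, r ^ i := by
      rw [sum_sub_distrib, sum_range_sub' (fun i => Gp m t (r ^ i)), pow_zero, ← mul_sum]
    have hG1 : Gp m t 1 = 2 * m := by
      unfold Gp
      rw [mul_one, max_eq_left ht2, max_eq_left (by linarith)]
      ring
    have hGJ : Gp m t (r ^ J) ≤ 2 * t := by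
      unfold Gp
      have h2 : m * r ^ J ≤ t := by
        have := mul_le_mul_of_nonneg_left hJ hm0.le
        linarith
      have h3 : max (m * r ^ J) t ≤ t := max_le h2 le_rfl
      have h4 : max (m * r ^ J) (2 * t - m) ≤ t := max_le h2 (by linarith)
      linarith
    have hexp : -∑ i ∈ range J, (Gp m t (r ^ i) - Gp m t (r ^ (i + 1)) -
        2 * (m * (1 - r) - 1) * r ^ i) ≤ (2 * t - m - m) + 2 * m * (m * (1 - r) - 1) := by
      rw [hs2, hG1]
      have := mul_le_mul_of_nonneg_left hs1 hκ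
      linarith
    have h2 : P ^ (-∑ i ∈ range J, (Gp m t (r ^ i) - Gp m t (r ^ (i + 1)) -
        2 * (m * (1 - r) - 1) * r ^ i)) ≤
        P ^ (2 * t - m) / P ^ m * P ^ (2 * m * (m * (1 - r) - 1)) := by
      rw [← Real.rpow_sub hP0, ← Real.rpow_add hP0]
      exact Real.rpow_le_rpow_of_exponent_le hP hexp
    have h4 : (6 * L ^ 2) ^ J ≤ (4 * L ^ 2) ^ (2 * J) := by
      rw [pow_mul]
      exact pow_le_pow_left₀ (by positivity) h6 _
    have h5 : 0 ≤ ∏ i ∈ range J, qx r P i ^ 2 := prod_nonneg fun i _ => sq_nonneg _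
    rw [mul_assoc _ (P ^ (2 * t - m) / P ^ m)]
    exact mul_le_mul (mul_le_mul_of_nonneg_right h4 h5) h2 (Real.rpow_pos_of_pos hP0 _).le
      (by positivity)

end Pool.Agent.L7h89.EX
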