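import Pool.Agent.L7h27.EX.Stm
import Pool.Agent.L7h89.WB.Pair

/-!
# Project EX (owner helper27, problem MP_570bef_nt), part PAIRX
-/

set_option autoImplicit false

namespace Pool.Agent.L7h89.EX

open Finset Pool.Agent.L7h27.EX Pool.Agent.L7h89.WB

/-- mean value theorem -/
lemma mvt {f f' : ℝ → ℝ} {x y C : ℝ} (hxy : x ≤ y)
    (hd : ∀ z, x ≤ z → z ≤ y → HasDerivAt f (f' z) z) (hC : ∀ z, x ≤ z → z ≤ y → C ≤ f' z) :
    C * (y - x) ≤ f y - f x := by
  rcases hxy.eq_or_lt with rfl | hlt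
  · simp
  · obtain ⟨z, hz, h⟩ := exists_hasDerivAt_eq_slope f f' hlt
      (fun z hz => (hd z hz.1 hz.2).continuousAt.continuousWithinAt)
      (fun z hz => hd z hz.1.le hz.2.le)
    have h1 := hC z hz.1.le hz.2.le
    rw [h, le_div_iff₀ (by linarith)] at h1
    exact h1

/-- the function `x ^ m` -/
lemma pow_mono {m Q x y : ℝ} (hm : 1 < m) (hQ : 0 < Q) (hx : Q ≤ x) (hxy : x ≤ y) :
    Q ^ (m - 1) * (y - x) ≤ y ^ m - x ^ m := by
  refine mvt (f := fun z => z ^ m) (f' := fun z => m * z ^ (m - 1)) hxy (fun z h1 _ => ?_)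
    (fun z h1 _ => ?_)
  · exact Real.hasDerivAt_rpow_const (Or.inl (by linarith))
  · have h2 : Q ^ (m - 1) ≤ z ^ (m - 1) :=
      Real.rpow_le_rpow hQ.le (hx.trans h1) (by linarith)
    have h3 : 0 < z ^ (m - 1) := Real.rpow_pos_of_pos (by linarith) _
    nlinarith

/-- the derivative of `x ^ m - γ x ^ m log x` -/
lemma hder {m γ c z : ℝ} (hz : 0 < z) (hγ : γ * (c + 1 / m) = 1) (hm : m ≠ 0) :
    HasDerivAt (fun z : ℝ => z ^ m - γ * (z ^ m * Real.log z))
      (γ * m * z ^ (m - 1) * (c - Real.log z)) z := by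
  have h1 : HasDerivAt (fun z : ℝ => z ^ m) (m * z ^ (m - 1)) z :=
    Real.hasDerivAt_rpow_const (Or.inl hz.ne')
  have h2 := h1.fun_sub ((h1.fun_mul (Real.hasDerivAt_log hz.ne')).const_mul γ)
  refine h2.congr_deriv ?_
  have h3 : z ^ m * z⁻¹ = z ^ (m - 1) := by
    rw [Real.rpow_sub_one hz.ne']
    rfl
  rw [h3]
  have h4 : γ * m * c + γ = m := by
    field_simp at hγ
    linarith
  linear_combination -(z ^ (m - 1)) * h4

/-- opposite signs -/
lemma opp {m Q L a1 b1 a2 b2 : ℝ} (hm : 1 < m) (hQ : 3 ≤ Q) (hL : L = Real.log (6 * Q) + 1 / m)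
    (xa1 : Q ≤ a1) (hab : a1 ≤ b1) (xb2 : b1 ≤ 4 * Q) (xb3 : 8 * Q ≤ b2) (h : b2 ≤ a2) :
    (1 / 4 * L⁻¹ * Q ^ (m - 1)) * (b1 - a1) ≤
      (b1 ^ m - L⁻¹ * (b1 ^ m * Real.log b1)) - (a1 ^ m - L⁻¹ * (a1 ^ m * Real.log a1)) +
      ((b2 ^ m - L⁻¹ * (b2 ^ m * Real.log b2)) - (a2 ^ m - L⁻¹ * (a2 ^ m * Real.log a2))) := by
  have hQp : 0 < Q := by linarith
  have hm0 : 0 < m := by linarith
  have h1m0 : 0 < 1 / m := by positivity
  have hL0 : 0 < L := by
    have : 0 ≤ Real.log (6 * Q) := Real.log_nonneg (by linarith)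
    linarith
  have hγ : L⁻¹ * (Real.log (6 * Q) + 1 / m) = 1 := by
    rw [← hL]
    exact inv_mul_cancel₀ hL0.ne'
  have hL1 : 0 < L⁻¹ := inv_pos.2 hL0
  have h2 : (1 / 4 * L⁻¹ * Q ^ (m - 1)) * (b1 - a1) ≤
      (b1 ^ m - L⁻¹ * (b1 ^ m * Real.log b1)) -
      (a1 ^ m - L⁻¹ * (a1 ^ m * Real.log a1)) := by
    refine mvt (f := fun z : ℝ => z ^ m - L⁻¹ * (z ^ m * Real.log z))
      (f' := fun z => L⁻¹ * m * z ^ (m - 1) * (Real.log (6 * Q) - Real.log z)) hab
      (fun z h1 _ => hder (by linarith) hγ hm0.ne') (fun z h1 h2 => ?_)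
    have hz : 0 < z := by linarith
    have e1 : 1 / 4 ≤ Real.log (6 * Q) - Real.log z := by
      rw [← Real.log_div (by positivity) hz.ne', Real.le_log_iff_exp_le (by positivity),
        le_div_iff₀ hz]
      have e2 : Real.exp (1 / 4) ≤ 3 / 2 := by
        have e3 : Real.exp (1 / 4) ^ 4 ≤ (3 / 2) ^ 4 := by
          rw [← Real.exp_nat_mul]
          norm_num
          have := Real.exp_one_lt_d9
          linarith
        exact le_of_pow_le_pow_left₀ (by norm_num) (by norm_num) e3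
      calc Real.exp (1 / 4) * z ≤ 3 / 2 * (4 * Q) :=
            mul_le_mul e2 (by linarith) hz.le (by norm_num)
        _ = 6 * Q := by ring
    have e4 : Q ^ (m - 1) ≤ z ^ (m - 1) :=
      Real.rpow_le_rpow hQp.le (xa1.trans h1) (by linarith)
    have e5 : L⁻¹ * Q ^ (m - 1) ≤ L⁻¹ * m * z ^ (m - 1) := by
      calc L⁻¹ * Q ^ (m - 1) ≤ L⁻¹ * z ^ (m - 1) := mul_le_mul_of_nonneg_left e4 hL1.le
        _ ≤ L⁻¹ * m * z ^ (m - 1) := by
          refine mul_le_mul_of_nonneg_right ?_ (Real.rpow_nonneg hz.le _)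
          nlinarith
    calc 1 / 4 * L⁻¹ * Q ^ (m - 1) = (L⁻¹ * Q ^ (m - 1)) * (1 / 4) := by ring
      _ ≤ _ := mul_le_mul e5 e1 (by norm_num)
          (mul_nonneg (by positivity) (Real.rpow_nonneg hz.le _))
  have h3 : 0 * (a2 - b2) ≤
      (-(a2 ^ m - L⁻¹ * (a2 ^ m * Real.log a2))) -
      (-(b2 ^ m - L⁻¹ * (b2 ^ m * Real.log b2))) := by
    refine mvt (f := fun z : ℝ => -(z ^ m - L⁻¹ * (z ^ m * Real.log z)))
      (f' := fun z => -(L⁻¹ * m * z ^ (m - 1) * (Real.log (6 * Q) - Real.log z))) h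
      (fun z h1 _ => (hder (by linarith) hγ hm0.ne').fun_neg) (fun z h1 h2 => ?_)
    have hz : 0 < z := by linarith
    have e1 : Real.log (6 * Q) ≤ Real.log z := Real.log_le_log (by positivity) (by linarith)
    have e2 : 0 ≤ L⁻¹ * m * z ^ (m - 1) :=
      mul_nonneg (by positivity) (Real.rpow_nonneg hz.le _)
    nlinarith
  linarith

/-- the first coordinates -/
lemma firstc {m Q V T A B c1 c2 : ℝ} (hm : 1 < m) (hQ : 3 ≤ Q) (hA0 : 0 ≤ A) (hB0 : 0 ≤ B)
    (eV : V = A * Q ^ (m - 1)) (eT : T = B * Q ^ (m - 1)) {a1 a2 b1 b2 : ℝ}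
    (xa1 : Q ≤ a1) (hab : a1 ≤ b1) (xb2 : b1 ≤ 4 * Q) (xa3 : 8 * Q ≤ a2) (xb3 : 8 * Q ≤ b2)
    (va : |a1 ^ m + a2 ^ m - c1| ≤ V) (vb : |b1 ^ m + b2 ^ m - c1| ≤ V)
    (ta : |a1 ^ m * Real.log a1 + a2 ^ m * Real.log a2 - c2| ≤ T)
    (tb : |b1 ^ m * Real.log b1 + b2 ^ m * Real.log b2 - c2| ≤ T) :
    b1 - a1 ≤ 32 * Real.log Q * A + 8 * B := by
  have hQp : 0 < Q := by linarith
  have hlQ : 1 ≤ Real.log Q := by
    rw [Real.le_log_iff_exp_le hQp]
    have := Real.exp_one_lt_d9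
    linarith
  have hcQ : 0 < Q ^ (m - 1) := Real.rpow_pos_of_pos hQp _
  rw [abs_le] at va vb ta tb
  rcases le_total a2 b2 with h | h
  · have h2 := pow_mono (Q := Q) hm hQp xa1 hab
    have h3 := pow_mono (Q := Q) hm hQp (by linarith : Q ≤ a2) h
    have h4 : 0 ≤ Q ^ (m - 1) * (b2 - a2) := mul_nonneg hcQ.le (by linarith)
    have h5 : Q ^ (m - 1) * (b1 - a1) ≤ Q ^ (m - 1) * (2 * A) := by
      rw [eV] at va vb
      linarith
    have h6 := le_of_mul_le_mul_left h5 hcQ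
    have h7 : A ≤ Real.log Q * A := le_mul_of_one_le_left hA0 hlQ
    linarith
  · obtain ⟨L, hL⟩ : ∃ L : ℝ, L = Real.log (6 * Q) + 1 / m := ⟨_, rfl⟩
    have hm0 : 0 < m := by linarith
    have h1m : 1 / m ≤ 1 := by
      rw [div_le_one hm0]
      exact hm.le
    have h1m0 : 0 < 1 / m := by positivity
    have hl6 : Real.log (6 * Q) = Real.log 6 + Real.log Q := Real.log_mul (by norm_num) hQp.ne'
    have hl6' : Real.log 6 ≤ 2 := by
      rw [Real.log_le_iff_le_exp (by norm_num)]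
      have h1 : Real.exp 2 = Real.exp 1 * Real.exp 1 := by rw [← Real.exp_add]; norm_num
      rw [h1]
      have := Real.exp_one_gt_d9
      nlinarith
    have hl60 : 0 ≤ Real.log 6 := Real.log_nonneg (by norm_num)
    have hL0 : 0 < L := by linarith
    have hL4 : L ≤ 4 * Real.log Q := by linarith
    have hL1 : 0 < L⁻¹ := inv_pos.2 hL0
    have h1 := opp hm hQ hL xa1 hab xb2 xb3 h
    have h5 : L⁻¹ * (-(2 * T)) ≤ L⁻¹ * ((b1 ^ m * Real.log b1 + b2 ^ m * Real.log b2) -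
        (a1 ^ m * Real.log a1 + a2 ^ m * Real.log a2)) :=
      mul_le_mul_of_nonneg_left (by linarith) hL1.le
    have h4 : (1 / 4 * L⁻¹ * Q ^ (m - 1)) * (b1 - a1) ≤ 2 * V + L⁻¹ * (2 * T) := by
      refine h1.trans ?_
      rw [mul_sub, mul_add, mul_add] at h5
      linarith
    have h6 : (1 / 4 * L⁻¹ * Q ^ (m - 1)) * (b1 - a1) ≤
        (1 / 4 * L⁻¹ * Q ^ (m - 1)) * (8 * L * A + 8 * B) := by
      have e1 : (1 / 4 * L⁻¹ * Q ^ (m - 1)) * (8 * L * A + 8 * B) =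
          (L⁻¹ * L) * (2 * (A * Q ^ (m - 1))) + L⁻¹ * (2 * (B * Q ^ (m - 1))) := by ring
      rw [e1, inv_mul_cancel₀ hL0.ne', one_mul, ← eV, ← eT]
      exact h4
    have h7 := le_of_mul_le_mul_left h6 (by positivity)
    have h8 : L * A ≤ 4 * Real.log Q * A := mul_le_mul_of_nonneg_right hL4 hA0
    linarith

/-- **PAIRX** -/
theorem s_PAIRX : S_PAIRX := by
  classical
  intro a b ha hab
  refine ⟨165, 3, by norm_num, le_rfl, ?_⟩
  intro m hma hmb Q hQ V T c1 c2 hV hT X hX hX2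
  have hm : 1 < m := ha.trans_le hma
  have hQp : 0 < Q := by linarith
  have hlQ : 1 ≤ Real.log Q := by
    rw [Real.le_log_iff_exp_le hQp]
    have := Real.exp_one_lt_d9
    linarith
  set A : ℝ := V / Q ^ (m - 1) with hA
  set B : ℝ := T / Q ^ (m - 1) with hB
  have hcQ : 0 < Q ^ (m - 1) := Real.rpow_pos_of_pos hQp _
  have hA0 : 0 ≤ A := by positivity
  have hB0 : 0 ≤ B := by positivity
  have eV : V = A * Q ^ (m - 1) := by rw [hA, div_mul_cancel₀ _ hcQ.ne']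
  have eT : T = B * Q ^ (m - 1) := by rw [hB, div_mul_cancel₀ _ hcQ.ne']
  -- the fibres over the first coordinate
  have hfib : ∀ u ∈ X.image Prod.fst, (#{x ∈ X | x.1 = u} : ℝ) ≤ 2 * (1 + A) := by
    intro u _
    have h1 : #{x ∈ X | x.1 = u} = #({x ∈ X | x.1 = u}.image Prod.snd) := by
      rw [card_image_of_injOn]
      rintro ⟨a, b⟩ hab ⟨a', b'⟩ hab' h
      simp only [coe_filter, Set.mem_ofPred_eq] at hab hab'
      obtain ⟨-, rfl⟩ := hab
      obtain ⟨-, rfl⟩ := hab'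
      dsimp only at h
      rw [h]
    rw [h1]
    have h2 : (#({x ∈ X | x.1 = u}.image Prod.snd) : ℝ) ≤ 2 * A + 1 := by
      refine card_le_diam _ _ (by positivity) ?_
      intro a ha b hb hab
      obtain ⟨⟨a1, a2⟩, ha', rfl⟩ := mem_image.1 ha
      obtain ⟨⟨b1, b2⟩, hb', rfl⟩ := mem_image.1 hb
      rw [mem_filter] at ha' hb'
      obtain ⟨ha', rfl⟩ := ha'
      obtain ⟨hb', hb1⟩ := hb'
      dsimp only at hab hb1 ⊢
      subst hb1
      obtain ⟨xa1, xa2, xa3, xa4⟩ := hX _ ha'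
      obtain ⟨xb1, xb2, xb3, xb4⟩ := hX _ hb'
      have va := (hX2 _ ha').1
      have vb := (hX2 _ hb').1
      dsimp only at xa3 xa4 xb3 xb4 va vb
      have hab' : (a2 : ℝ) ≤ b2 := by exact_mod_cast hab
      have h3 := pow_mono (Q := Q) hm hQp (by linarith : Q ≤ (a2 : ℝ)) hab'
      rw [abs_le] at va vb
      have h4 : Q ^ (m - 1) * ((b2 : ℝ) - a2) ≤ Q ^ (m - 1) * (2 * A) := by
        rw [eV] at va vb
        linarith
      exact le_of_mul_le_mul_left h4 hcQ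
    linarith
  -- the first coordinates
  have himg : (#(X.image Prod.fst) : ℝ) ≤ 33 * Real.log Q * (1 + A + B) := by
    have h1 : (#(X.image Prod.fst) : ℝ) ≤ (32 * Real.log Q * A + 8 * B) + 1 := by
      refine card_le_diam _ _ (by positivity) ?_
      intro a ha b hb hab
      obtain ⟨⟨a1, a2⟩, ha', rfl⟩ := mem_image.1 ha
      obtain ⟨⟨b1, b2⟩, hb', rfl⟩ := mem_image.1 hb
      dsimp only at hab ⊢
      obtain ⟨xa1, xa2, xa3, xa4⟩ := hX _ ha'
      obtain ⟨xb1, xb2, xb3, xb4⟩ := hX _ hb'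
      obtain ⟨va, ta⟩ := hX2 _ ha'
      obtain ⟨vb, tb⟩ := hX2 _ hb'
      have hab' : (a1 : ℝ) ≤ b1 := by exact_mod_cast hab
      exact firstc hm hQ hA0 hB0 eV eT xa1 hab' xb2 xa3 xb3 va vb ta tb
    refine h1.trans ?_
    have h2 : B ≤ Real.log Q * B := le_mul_of_one_le_left hB0 hlQ
    have h3 : 0 ≤ Real.log Q * A := mul_nonneg (by linarith) hA0
    have h4 : 0 ≤ Real.log Q * B := mul_nonneg (by linarith) hB0
    linarith
  -- the number of the first coordinates, trivially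
  have himg2 : (#(X.image Prod.fst) : ℝ) ≤ 5 * Q := by
    have h1 : (#(X.image Prod.fst) : ℝ) ≤ (4 * Q - Q) + 1 := by
      refine card_le_diam _ _ (by linarith) ?_
      intro a ha b hb hab
      obtain ⟨⟨a1, a2⟩, ha', rfl⟩ := mem_image.1 ha
      obtain ⟨⟨b1, b2⟩, hb', rfl⟩ := mem_image.1 hb
      have h2 := (hX _ ha').1
      have h3 := (hX _ hb').2.1
      dsimp only at h2 h3 ⊢
      linarith
    linarith
  have hfib2 : ∀ u ∈ X.image Prod.fst, (#{x ∈ X | x.1 = u} : ℝ) ≤ 33 * Q := by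
    intro u _
    have h1 : #{x ∈ X | x.1 = u} = #({x ∈ X | x.1 = u}.image Prod.snd) := by
      rw [card_image_of_injOn]
      rintro ⟨a, b⟩ hab ⟨a', b'⟩ hab' h
      simp only [coe_filter, Set.mem_ofPred_eq] at hab hab'
      obtain ⟨-, rfl⟩ := hab
      obtain ⟨-, rfl⟩ := hab'
      dsimp only at h
      rw [h]
    rw [h1]
    have h2 : (#({x ∈ X | x.1 = u}.image Prod.snd) : ℝ) ≤ (32 * Q - 8 * Q) + 1 := by
      refine card_le_diam _ _ (by linarith) ?_
      intro a ha b hb hab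
      obtain ⟨⟨a1, a2⟩, ha', rfl⟩ := mem_image.1 ha
      obtain ⟨⟨b1, b2⟩, hb', rfl⟩ := mem_image.1 hb
      have h3 := (hX _ (mem_filter.1 ha').1).2.2.1
      have h4 := (hX _ (mem_filter.1 hb').1).2.2.2
      dsimp only at h3 h4 ⊢
      linarith
    linarith
  have b1 : (#X : ℝ) ≤ 165 * Q ^ 2 := by
    have h1 := card_fib X Prod.fst _ hfib2
    have h2 := mul_le_mul_of_nonneg_right himg2 (by positivity : 0 ≤ 33 * Q)
    linarith
  have b2 : (#X : ℝ) ≤ 10 * (Q * (1 + A)) := by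
    have h1 := card_fib X Prod.fst _ hfib
    have h2 := mul_le_mul_of_nonneg_right himg2 (by linarith : 0 ≤ 2 * (1 + A))
    linarith
  have b3 : (#X : ℝ) ≤ 66 * Real.log Q * ((1 + A) * (1 + A + B)) := by
    have h1 := card_fib X Prod.fst _ hfib
    have h2 := mul_le_mul_of_nonneg_right himg (by linarith : 0 ≤ 2 * (1 + A))
    linarith
  have hKK : 0 ≤ 165 * Real.log Q := by linarith
  have hst : stepx m Q V T = min (Q ^ 2) (min (Q * (1 + A)) ((1 + A) * (1 + A + B))) := rfl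
  rw [hst, mul_min_of_nonneg _ _ hKK, mul_min_of_nonneg _ _ hKK]
  refine le_min (b1.trans ?_) (le_min (b2.trans ?_) (b3.trans ?_))
  · refine mul_le_mul_of_nonneg_right ?_ (sq_nonneg _)
    linarith
  · refine mul_le_mul_of_nonneg_right ?_ (mul_nonneg hQp.le (by linarith))
    linarith
  · refine mul_le_mul_of_nonneg_right ?_ (mul_nonneg (by linarith) (by linarith))
    linarith

end Pool.Agent.L7h89.EX
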